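import Pool.Agent.Zk89.AP.One
import Pool.Agent.TH635.AA.Fnl
import Pool.Agent.TH784.AA.Fin

/-!
# Algebraic actions: sums of polynomials in one variable, all bounded functions
-/

set_option autoImplicit false
set_option linter.unusedSectionVars false

open Filter Topology MeasureTheory
open scoped ENNReal

noncomputable section

namespace Pool.Agent.Zk89.AP

open Pool.Agent.Zk89.BT (G1)
open Pool.Agent.Zk89.MT (bxc_one)
open Pool.Agent.W761.Box (BM bx bxc Good1 Cv)
open Pool.Agent.TH784.AA (IsAff isAff_prod)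
open Pool.Agent.TH635.AA (S poly_bdd RiemInt BM_cont Bd_cont)

/-- a sum of polynomials in one variable each -/
def sepP {k : ℕ} (Q : Fin k → Polynomial ℤ) : MvPolynomial (Fin k) ℤ :=
  ∑ l, Polynomial.aeval (MvPolynomial.X l) (Q l)

theorem eval_sepP {k : ℕ} (Q : Fin k → Polynomial ℤ) (m : Fin k → ℤ) :
    MvPolynomial.eval m (sepP Q) = ∑ l, (Q l).eval (m l) := by
  unfold sepP
  rw [map_sum]
  refine Finset.sum_congr rfl fun l _ => ?_
  rw [← MvPolynomial.coe_aeval_eq_eval, RingHom.coe_coe, ← Polynomial.aeval_algHom_apply,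
    MvPolynomial.aeval_X]
  rfl

variable {X : Type} [CommGroup X] [TopologicalSpace X] [IsTopologicalGroup X] [CompactSpace X]
  [T2Space X] [MeasurableSpace X] [BorelSpace X] {μ : Measure X} [μ.IsHaarMeasure]
  [IsProbabilityMeasure μ] {d k n : ℕ}

theorem g1_alg {T : Fin d → Equiv.Perm X} (hT : ∀ i, IsAff (T i : X → X))
    (hc : ∀ i j, Commute (T i) (T j)) (P : Fin d → Polynomial ℤ) :
    G1 μ (fun n => ((List.ofFn fun i => T i ^ ((P i).eval (n : ℤ))).prod : X → X)) := by
  refine g1_comm hc (fun a => (isAff_prod hT a).mp) P ?_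
  intro H hH ⟨C, hC⟩ ε hε
  have hreg : μ.Regular := inferInstance
  have hmem : MemLp (fun x => (H x : ℂ)) (ENNReal.ofReal 2) μ := by
    refine MemLp.of_bound (Complex.measurable_ofReal.comp hH).aestronglyMeasurable C
      (Eventually.of_forall fun x => ?_)
    rw [Complex.norm_real, Real.norm_eq_abs]
    exact hC x
  obtain ⟨v, hv, _⟩ := hmem.exists_boundedContinuous_integral_rpow_sub_le (by norm_num) hε
  refine ⟨v, BM_cont v.continuous, ?_, ?_⟩
  · simpa only [Real.rpow_two] using hv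
  · have h := poly_bdd (μ := μ) (n := 1) (k := 1) hT hc (fun i _ => sepP (fun _ => P i))
      (F := fun _ => v) (fun _ => Bd_cont v.continuous) (fun _ => Or.inl fun ε hε =>
        ⟨v, fun _ => 0, v.continuous, continuous_const, Eventually.of_forall fun x => by simp, by
          simpa using hε.le⟩)
    filter_upwards [h] with x hx
    obtain ⟨L, hL⟩ := hx
    refine ⟨L, ?_⟩
    have h1 : Tendsto (fun (N : ℕ) (_ : Fin 1) => N) atTop atTop :=
      tendsto_atTop_atTop.2 fun b => ⟨b 0, fun N hN i => by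
        rw [Fin.fin_one_eq_zero i]
        exact hN⟩
    refine (hL.comp h1).congr fun N => ?_
    simp only [Function.comp_apply, bxc_one, Fin.prod_univ_one, S, eval_sepP, Fin.sum_univ_one]

/-- the maps are good for single functions if no monomial is mixed -/
theorem good_nomix {T : Fin d → Equiv.Perm X} (hT : ∀ i, IsAff (T i : X → X))
    (hc : ∀ i j, Commute (T i) (T j)) (P : Fin d → MvPolynomial (Fin k) ℤ)
    (hP : ∀ i, ∀ s ∈ (P i).support, s.support.card ≤ 1) : Good1 μ (S T P) := by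
  choose Q hQ using fun i => exists_sep (P i) (hP i)
  have h1 := good1_sep (μ := μ) hc (fun a => (isAff_prod hT a).mp)
    (fun i => MvPolynomial.coeff 0 (P i)) Q (fun l => g1_alg hT hc fun i => Q i l)
  have e : S T P = fun m : Fin k → ℕ => ((List.ofFn fun i => T i ^ (MvPolynomial.coeff 0 (P i) +
      ∑ l, (Q i l).eval ((m l : ℕ) : ℤ))).prod : X → X) := by
    funext m x
    simp only [S, hQ]
  rw [e]
  exact h1

/-- **Algebraic actions and their factors.** -/
theorem alg_factor {Y : Type} [MeasurableSpace Y] {ν : Measure Y} {T : Fin d → Equiv.Perm X}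
    (hT : ∀ i, IsAff (T i : X → X)) (hc : ∀ i j, Commute (T i) (T j)) {R : Fin d → Equiv.Perm Y}
    (hRm : ∀ i, Measurable (R i).symm) (hR : ∀ i, MeasurePreserving (R i) ν ν) {π : X → Y}
    (hπ : MeasurePreserving π μ ν) (hπT : ∀ i, ∀ᵐ x ∂μ, π (T i x) = R i (π x))
    (P : Fin d → Fin n → MvPolynomial (Fin k) ℤ) {f : Fin n → Y → ℂ}
    (hf : ∀ j, MemLp (f j) ∞ ν)
    (hslot : ∀ j, (∀ i, ∀ s ∈ (P i j).support, s.support.card ≤ 1) ∨
      RiemInt μ (fun x => f j (π x))) :
    ∀ᵐ y ∂ν, ∃ L : ℂ, Tendsto (fun N => bxc k N fun m => ∏ j, f j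
      ((List.ofFn fun i : Fin d => R i ^
        (MvPolynomial.eval (fun l => ((m l : ℕ) : ℤ)) (P i j))).prod y)) atTop (𝓝 L) := by
  have hprob : IsProbabilityMeasure ν := by
    rw [← hπ.map_eq]
    exact Measure.isProbabilityMeasure_map hπ.measurable.aemeasurable
  have hTm : ∀ i, MeasurePreserving (T i) μ μ := fun i => (hT i).mp
  have hT' : ∀ i, MeasurePreserving ((T i)⁻¹ : Equiv.Perm X) μ μ := fun i => (hT i).symm.mp
  have hR' : ∀ i, MeasurePreserving ((R i)⁻¹ : Equiv.Perm Y) ν ν := by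
    intro i
    let e : Y ≃ᵐ Y := ⟨R i, (hR i).measurable, hRm i⟩
    exact (hR i).symm e
  set E : (Fin k → ℕ) → Fin d → Fin n → ℤ := fun m i j =>
    MvPolynomial.eval (fun l => ((m l : ℕ) : ℤ)) (P i j) with hE
  choose g hg hfg using fun j => Pool.Agent.W761.Gauss.BM_of_memLp (hf j)
  have h1 : Cv μ (fun j m => S T (fun i => P i j) m) (fun j => g j ∘ π) := by
    refine poly_bdd hT hc P (fun j => ?_) (fun j => ?_)
    · obtain ⟨_, C, hC⟩ := hg j
      exact ⟨C, fun x => hC _⟩
    · rcases hslot j with h | h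
      · exact Or.inr ⟨(hg j).1.comp hπ.measurable, Or.inr (good_nomix hT hc _ h)⟩
      · exact Or.inl (Pool.Agent.TH635.AA.riemInt_congr
          (hπ.quasiMeasurePreserving.ae (hfg j)) h)
  have h2 : ∀ᵐ x ∂μ, ∀ (m : Fin k → ℕ) (j : Fin n),
      π ((List.ofFn fun i : Fin d => T i ^ E m i j).prod x) =
      (List.ofFn fun i : Fin d => R i ^ E m i j).prod (π x) := by
    rw [ae_all_iff]
    intro m
    rw [ae_all_iff]
    intro j
    exact Pool.Agent.W761.Gauss.inter_prod hTm hT' hπT _
  have hgR : ∀ (m : Fin k → ℕ), Measurable fun y => ∏ j, g j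
      ((List.ofFn fun i : Fin d => R i ^ E m i j).prod y) := by
    intro m
    apply Finset.measurable_fun_prod
    intro j _
    exact (hg j).1.comp (Pool.Agent.W761.Gauss.mp_prod hR hR' _).measurable
  have hms : MeasurableSet {y | ∃ L : ℂ, Tendsto (fun N => bxc k N fun m => ∏ j, g j
      ((List.ofFn fun i : Fin d => R i ^ E m i j).prod y)) atTop (𝓝 L)} := by
    apply measurableSet_exists_tendsto
    intro N
    unfold Pool.Agent.W761.Box.bxc
    exact (Finset.measurable_fun_sum _ fun n _ => hgR n).const_mul _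
  have h3 : ∀ᵐ x ∂μ, π x ∈ {y | ∃ L : ℂ, Tendsto (fun N => bxc k N fun m => ∏ j, g j
      ((List.ofFn fun i : Fin d => R i ^ E m i j).prod y)) atTop (𝓝 L)} := by
    filter_upwards [h1, h2] with x hx1 hx2
    obtain ⟨L, hL⟩ := hx1
    refine ⟨L, hL.congr fun N => ?_⟩
    congr 1
    funext m
    apply Finset.prod_congr rfl
    intro j _
    show g j (π (S T (fun i => P i j) m x)) = _
    unfold S
    rw [hx2]
  have h4 : ∀ᵐ y ∂ν, y ∈ {y | ∃ L : ℂ, Tendsto (fun N => bxc k N fun m => ∏ j, g j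
      ((List.ofFn fun i : Fin d => R i ^ E m i j).prod y)) atTop (𝓝 L)} := by
    rw [← hπ.map_eq]
    exact (ae_map_iff hπ.measurable.aemeasurable hms).mpr h3
  have h5 : ∀ᵐ y ∂ν, ∀ (m : Fin k → ℕ) (j : Fin n),
      f j ((List.ofFn fun i : Fin d => R i ^ E m i j).prod y) =
      g j ((List.ofFn fun i : Fin d => R i ^ E m i j).prod y) := by
    rw [ae_all_iff]
    intro m
    rw [ae_all_iff]
    intro j
    exact (Pool.Agent.W761.Gauss.mp_prod hR hR' _).quasiMeasurePreserving.ae (hfg j)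
  filter_upwards [h4, h5] with y hy4 hy5
  obtain ⟨L, hL⟩ := hy4
  refine ⟨L, hL.congr fun N => ?_⟩
  congr 1
  funext m
  apply Finset.prod_congr rfl
  intro j _
  exact (hy5 m j).symm

end Pool.Agent.Zk89.AP
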