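import Pool.Agent.Zk89.MT.Fn
import Pool.Agent.W761.Box.Main

/-!
# Commuting transformations: one function along polynomials in one variable, from a dense class
-/

set_option autoImplicit false
set_option linter.unusedSectionVars false

open Filter Topology MeasureTheory Polynomial

noncomputable section

namespace Pool.Agent.Zk89.AP

open Pool.Agent.Zk89.BT (G1)
open Pool.Agent.Zk89.MT (gc cav banach prod_poly)
open Pool.Agent.W761.Box (BM bx bxc Good1 prod_zpow_add)

variable {X : Type*} [MeasurableSpace X] {μ : Measure X} [IsProbabilityMeasure μ]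

/-- the action of `ℤ^d` -/
def act {d : ℕ} (T : Fin d → Equiv.Perm X) (hc : ∀ i j, Commute (T i) (T j)) :
    Multiplicative (Fin d → ℤ) →* Equiv.Perm X where
  toFun a := (List.ofFn fun i => T i ^ (Multiplicative.toAdd a i)).prod
  map_one' := by simp
  map_mul' a b := prod_zpow_add T hc _ _

theorem act_apply {d : ℕ} (T : Fin d → Equiv.Perm X) (hc : ∀ i j, Commute (T i) (T j))
    (a : Fin d → ℤ) :
    act T hc (Multiplicative.ofAdd a) = (List.ofFn fun i => T i ^ a i).prod := rfl

/-- the generators -/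
def gen {d : ℕ} (i : Fin d) : Multiplicative (Fin d → ℤ) := Multiplicative.ofAdd (Pi.single i 1)

theorem prod_gen {d : ℕ} (e : Fin d → ℤ) :
    ∏ i, gen i ^ e i = (Multiplicative.ofAdd e : Multiplicative (Fin d → ℤ)) := by
  apply Multiplicative.toAdd.injective
  rw [toAdd_prod]
  funext l
  rw [Finset.sum_apply]
  have h : ∀ i, Multiplicative.toAdd (gen i ^ e i : Multiplicative (Fin d → ℤ)) l =
      if i = l then e i else 0 := by
    intro i
    rw [toAdd_zpow, Pi.smul_apply, gen, toAdd_ofAdd, Pi.single_apply, smul_eq_mul]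
    by_cases hil : i = l
    · subst hil
      simp
    · rw [if_neg (fun h => hil h.symm), if_neg hil, mul_zero]
  simp only [h]
  rw [Finset.sum_ite_eq' Finset.univ l, if_pos (Finset.mem_univ l)]
  rfl

/-- **One function along polynomials in one variable**, commuting transformations with a dense
class of good functions. -/
theorem g1_comm {d : ℕ} {T : Fin d → Equiv.Perm X} (hc : ∀ i j, Commute (T i) (T j))
    (hmp : ∀ a : Fin d → ℤ, MeasurePreserving ((List.ofFn fun i => T i ^ a i).prod : X → X) μ μ)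
    (P : Fin d → ℤ[X])
    (happ : ∀ H : X → ℝ, Measurable H → (∃ C : ℝ, ∀ x, |H x| ≤ C) → ∀ ε : ℝ, 0 < ε →
      ∃ v : X → ℂ, BM v ∧ ∫ x, ‖(H x : ℂ) - v x‖ ^ 2 ∂μ ≤ ε ∧
        ∀ᵐ x ∂μ, ∃ L : ℂ, Tendsto (fun N : ℕ => (N : ℂ)⁻¹ * ∑ n ∈ Finset.range N,
          v ((List.ofFn fun i => T i ^ ((P i).eval (n : ℤ))).prod x)) atTop (𝓝 L)) :
    G1 μ (fun n => ((List.ofFn fun i => T i ^ ((P i).eval (n : ℤ))).prod : X → X)) := by
  intro H hH ⟨b, hb⟩
  obtain ⟨c, e, D, hce⟩ := prod_poly (fun i : Fin d => gen i) P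
  have horb : ∀ n : ℕ, (List.ofFn fun i => T i ^ ((P i).eval (n : ℤ))).prod =
      act T hc c * act T hc (gc e D n) := by
    intro n
    rw [← map_mul, ← hce n, prod_gen, act_apply]
  have hm : ∀ a, MeasurePreserving (act T hc a) μ μ := fun a => hmp (Multiplicative.toAdd a)
  have key := banach (Ψ := act T hc) hm e D (H := fun x => (H (act T hc c x) : ℂ))
    (Complex.measurable_ofReal.comp (hH.comp (hm c).measurable)) (b := b) (fun x => by
      rw [Complex.norm_real, Real.norm_eq_abs]
      exact hb _) (fun ε hε => by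
      obtain ⟨v, ⟨hv, Cv, hCv⟩, hi, hcv⟩ := happ H hH ⟨b, hb⟩ ε hε
      refine ⟨fun x => v (act T hc c x), hv.comp (hm c).measurable, ⟨Cv, fun x => hCv _⟩, ?_, ?_⟩
      · have h1 : AEStronglyMeasurable (fun x => ‖(H x : ℂ) - v x‖ ^ 2) μ :=
          (((Complex.measurable_ofReal.comp hH).sub hv).norm.pow_const 2).aestronglyMeasurable
        have h2 := (hm c).map_eq
        have h3 : ∫ x, ‖(H x : ℂ) - v x‖ ^ 2 ∂(μ.map (act T hc c)) =
            ∫ x, ‖(H (act T hc c x) : ℂ) - v (act T hc c x)‖ ^ 2 ∂μ :=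
          integral_map (hm c).measurable.aemeasurable (by rw [h2]; exact h1)
        rw [h2] at h3
        rw [← h3]
        exact hi
      · filter_upwards [hcv] with x hx
        obtain ⟨L, hL⟩ := hx
        refine ⟨L, hL.congr fun N => ?_⟩
        unfold cav
        congr 1
        refine Finset.sum_congr rfl fun n _ => ?_
        rw [horb n]
        rfl)
  filter_upwards [key] with x hx
  obtain ⟨L, hL⟩ := hx
  refine ⟨L.re, ((Complex.continuous_re.tendsto L).comp hL).congr fun N => ?_⟩
  simp only [Function.comp_apply]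
  unfold cav
  have e1 : (N : ℂ)⁻¹ * ∑ n ∈ Finset.range N,
      ((H (act T hc c (act T hc (gc e D n) x)) : ℝ) : ℂ) =
      (((N : ℝ)⁻¹ * ∑ n ∈ Finset.range N, H (act T hc c (act T hc (gc e D n) x)) : ℝ) : ℂ) := by
    push_cast
    rfl
  rw [e1, Complex.ofReal_re]
  congr 1
  refine Finset.sum_congr rfl fun n _ => ?_
  rw [horb n]
  rfl

theorem list_prod_sum {d k : ℕ} {T : Fin d → Equiv.Perm X} (hc : ∀ i j, Commute (T i) (T j))
    (E : Fin k → Fin d → ℤ) :
    (List.ofFn fun l : Fin k => (act T hc (Multiplicative.ofAdd (E l)))).prod =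
      (List.ofFn fun i : Fin d => T i ^ (∑ l, E l i)).prod := by
  rw [← act_apply T hc fun i => ∑ l, E l i]
  have h1 : (List.ofFn fun l : Fin k => (act T hc (Multiplicative.ofAdd (E l)))).prod =
      act T hc (∏ l, Multiplicative.ofAdd (E l)) := by
    rw [← List.prod_ofFn, map_list_prod, List.map_ofFn]
    rfl
  rw [h1, ← ofAdd_sum]
  congr 2
  funext i
  rw [Finset.sum_apply]

/-- **One function along sums of polynomials in one variable**, unrestricted boxes. -/
theorem good1_sep {d k : ℕ} {T : Fin d → Equiv.Perm X} (hc : ∀ i j, Commute (T i) (T j))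
    (hmp : ∀ a : Fin d → ℤ, MeasurePreserving ((List.ofFn fun i => T i ^ a i).prod : X → X) μ μ)
    (b : Fin d → ℤ) (Q : Fin d → Fin k → ℤ[X])
    (h1 : ∀ l, G1 μ (fun n => ((List.ofFn fun i => T i ^ ((Q i l).eval (n : ℤ))).prod : X → X))) :
    Good1 μ (fun m : Fin k → ℕ =>
      ((List.ofFn fun i => T i ^ (b i + ∑ l, (Q i l).eval ((m l : ℕ) : ℤ))).prod : X → X)) := by
  have h2 := Pool.Agent.Zk89.BT.good_prod (Φ := act T hc) (μ := μ)
    (fun a => hmp (Multiplicative.toAdd a)) (Multiplicative.ofAdd b)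
    (fun l n => Multiplicative.ofAdd fun i => (Q i l).eval (n : ℤ)) (fun l => h1 l)
  intro H hH hb
  refine (h2 H hH hb).mono fun x hx => ?_
  obtain ⟨L, hL⟩ := hx
  refine ⟨L, hL.congr fun N => ?_⟩
  congr 1
  funext m
  show H (act T hc (Multiplicative.ofAdd b * (List.ofFn fun l =>
    Multiplicative.ofAdd fun i => (Q i l).eval ((m l : ℕ) : ℤ)).prod) x) =
    H ((List.ofFn fun i => T i ^ (b i + ∑ l, (Q i l).eval ((m l : ℕ) : ℤ))).prod x)
  rw [map_mul, map_list_prod, List.map_ofFn, act_apply]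
  have h3 : (List.ofFn fun i => T i ^ (b i + ∑ l, (Q i l).eval ((m l : ℕ) : ℤ))).prod =
      (List.ofFn fun i => T i ^ b i).prod *
        (List.ofFn fun i => T i ^ (∑ l, (Q i l).eval ((m l : ℕ) : ℤ))).prod :=
    prod_zpow_add T hc b fun i => ∑ l, (Q i l).eval ((m l : ℕ) : ℤ)
  rw [h3, ← list_prod_sum hc fun l i => (Q i l).eval ((m l : ℕ) : ℤ)]
  rfl

/-- A polynomial each of whose monomials contains at most one variable is a sum of polynomials in
one variable. -/
theorem exists_sep {k : ℕ} (P : MvPolynomial (Fin k) ℤ)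
    (h : ∀ s ∈ P.support, s.support.card ≤ 1) :
    ∃ Q : Fin k → ℤ[X], ∀ m : Fin k → ℤ,
      MvPolynomial.eval m P = MvPolynomial.coeff 0 P + ∑ l, (Q l).eval (m l) := by
  classical
  refine ⟨fun l => ∑ s ∈ P.support, if s l = 0 then 0 else
    Polynomial.C (MvPolynomial.coeff s P) * Polynomial.X ^ (s l), fun m => ?_⟩
  have h1 : ∀ l, (∑ s ∈ P.support, if s l = 0 then (0 : ℤ[X]) else
      Polynomial.C (MvPolynomial.coeff s P) * Polynomial.X ^ (s l)).eval (m l) =
      ∑ s ∈ P.support, if s l = 0 then 0 else MvPolynomial.coeff s P * m l ^ s l := by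
    intro l
    rw [Polynomial.eval_finsetSum]
    refine Finset.sum_congr rfl fun s _ => ?_
    split_ifs <;> simp
  simp only [h1]
  rw [Finset.sum_comm, MvPolynomial.eval_eq']
  have h2 : MvPolynomial.coeff 0 P = ∑ s ∈ P.support,
      if s = 0 then MvPolynomial.coeff s P else 0 := by
    rw [Finset.sum_ite_eq']
    split_ifs with h0
    · rfl
    · exact MvPolynomial.notMem_support_iff.1 h0
  rw [h2, ← Finset.sum_add_distrib]
  refine Finset.sum_congr rfl fun s hs => ?_
  by_cases h0 : s = 0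
  · subst h0
    simp
  · have hcard := h s hs
    have hne : s.support.Nonempty := Finsupp.support_nonempty_iff.2 h0
    obtain ⟨l, hl⟩ := Finset.card_eq_one.1 (le_antisymm hcard (Finset.card_pos.2 hne))
    have hz : ∀ i, i ≠ l → s i = 0 := by
      intro i hi
      by_contra hcon
      exact hi (Finset.mem_singleton.1 (hl ▸ Finsupp.mem_support_iff.2 hcon))
    have hl0 : s l ≠ 0 := Finsupp.mem_support_iff.1 (hl ▸ Finset.mem_singleton_self l)
    rw [if_neg h0, zero_add, Finset.sum_eq_single l (fun i _ hi => by rw [if_pos (hz i hi)])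
      (fun hcon => absurd (Finset.mem_univ l) hcon), if_neg hl0,
      Finset.prod_eq_single l (fun i _ hi => by rw [hz i hi, pow_zero])
      (fun hcon => absurd (Finset.mem_univ l) hcon)]

end Pool.Agent.Zk89.AP
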